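import Pool.Agent.Run7.h258.SL.Main

/-!
# Extensions whose kernels act in a finitary way on modules

`C` is any class of groups with the closure properties `ClosedE C`, all of which are known for the
class of the groups that satisfy the Full Farrell–Jones Conjecture. `N` is a normal subgroup of `G`
and `G ⧸ N` is in `C`.

Suppose that for `g = 1` and for each `g` in `G` of infinite order modulo `N`, and for each finite
subset `E` of `N`, there are a ring `R`, an `R`-module `V`, an action `j` of `N` on `V` by
automorphisms of the `R`-module which is faithful on the subgroup generated by `E` and `g E g⁻¹`,
and any automorphism `γ` of the `R`-module `V` with `j (g n g⁻¹) = γ (j n) γ⁻¹` for all `n` in `E`,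
such that one of the following holds (`LinearConj`, `Finitary`).

* `R` is left Noetherian, `V` is a direct summand of a direct sum of arbitrarily many copies of a
  finitely generated `R`-module `T`, where `T = R` or `R` is commutative (`Adm R T` and
  `SummandOf R V T`; for `T = R` this says that `V` is projective), the automorphism groups of the
  modules `T ^ d` are in `C` (for `T = R` these are the groups `GL_d` of the opposite ring of `R`),
  and `(j n - 1) V` is finitely generated for all `n` in `E`.
* `V` has a frame, which is a directed set `PP` of idempotent endomorphisms of `V` with finitely
  generated images which cover `V` (for instance `V` is a direct sum of arbitrary finitely generated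
  modules and the members of `PP` are the projections onto the sums of finitely many of them), the
  automorphism groups of the modules `p V × p V` are in `C`, and all `j n` and `j (g n g⁻¹)` are
  carried by members of `PP`; `x` is carried by `p` if it commutes with `p` and is the identity on
  `(1 - p) V`.

Then `G` is in `C`.

For instance let `G` act on a projective module `V` over a left Noetherian ring `R` for which all
groups `Aut (R ^ d)` are in `C`. If `N` acts faithfully, `(n - 1) V` is finitely generated for all
`n` in `N` and `G ⧸ N` is in `C`, then `G` is in `C`.

Outline of the proof. Let `x` run through a finite set of automorphisms of `V` and let `x` and `γ x γ⁻¹`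
be carried by members of the frame. The automorphism `γ` does not respect the frame; but there
are members `p ≤ q` such that the automorphisms `x` are carried by `p`, the automorphisms
`γ x γ⁻¹` are carried by `q`, and `γ p V ⊆ q V`. The complements of `p V` and `γ p V` in `q V`
need not be isomorphic, but they become so after adding `p V`. So the conjugation by `γ` on the
automorphisms `x` is realized by an automorphism of `q V × p V`, given by explicit formulas
(`tw`). Then the criterion for realized conjugations applies. If `R` is left Noetherian and `V` is
a direct sum of copies of `T`, then all idempotents with finitely generated images are a frame,
and it carries all `x` for which `(x - 1) V` is finitely generated, because for each homomorphism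
`D` with finitely generated image, the module `V` is the direct sum of a finitely generated module
and one on which `D` is zero (`kill`).
-/

set_option autoImplicit false

namespace Pool.Agent.Results.MP_e40716_gt.StableLinearKernels

open Pool.Agent.Y110.FJ Run7.h258.SL

theorem result (C : ∀ (G : Type) [Group G], Prop) (hC : ClosedE C) (G : Type) [Group G]
    (N : Subgroup G) [N.Normal] (hQ : C (G ⧸ N))
    (h : ∀ g : G, (g = 1 ∨ ∀ n : ℕ, 0 < n → g ^ n ∉ N) → ∀ E : Set G, E.Finite → E ⊆ N →
      LinearConj C N g E) : C G :=
  main C hC G N hQ h

end Pool.Agent.Results.MP_e40716_gt.StableLinearKernels
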